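import Mathlib

namespace Pool.Agent.Results.MP_15c144_al.MacdonaldCamina

open scoped commutatorElement

/-- `N` is a normal subgroup of `G` with `1 < N < G`, and for every `g` outside `N` the conjugacy
class of `g` contains the whole coset `gN`. -/
def IsCaminaPair {G : Type} [Group G] (N : Subgroup G) : Prop :=
  N.Normal ∧ N ≠ ⊥ ∧ N ≠ ⊤ ∧ ∀ g : G, g ∉ N → ∀ n ∈ N, ∃ x : G, x⁻¹ * g * x = g * n

/-- The term `G_i` of the lower central series, numbered so that `G_1 = G`, `G_{i+1} = [G_i, G]`. -/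
def lcsTerm (G : Type) [Group G] (i : ℕ) : Subgroup G :=
  (⊤ : Subgroup G).lowerCentralSeries (i - 1)

/-- The input data of the construction. -/
structure Dat (F E : Type) [Field F] [Field E] [Algebra F E] where
  bar : E →ₐ[F] E
  bar_bar : ∀ x, bar (bar x) = x
  ze : E
  ze_ne : ze ≠ 0
  bar_ze : bar ze = -ze
  T : E →ₗ[F] F
  T_one : T 1 = 1
  b : E →ₗ[F] E →ₗ[F] F
  hb : ∀ v, v ≠ 0 → bar v = -v → ∀ t : F, ∃ v', bar v' = -v' ∧ b v v' - b v' v = t

section
variable {F E : Type} [Field F] [Field E] [Algebra F E] (D : Dat F E)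

def Dat.et : E := D.ze⁻¹

lemma Dat.bar_et : D.bar D.et = -D.et := by
  unfold Dat.et; rw [map_inv₀, D.bar_ze, inv_neg]

lemma Dat.ze_et : D.ze * D.et = 1 := mul_inv_cancel₀ D.ze_ne

lemma Dat.bar_inj {x : E} (h : D.bar x = 0) : x = 0 := by
  rw [← D.bar_bar x, h, map_zero]

/-- the symmetrised functional -/
def Dat.S : E →+ F where
  toFun x := D.T (x + D.bar x)
  map_zero' := by simp
  map_add' x y := by rw [← map_add D.T, map_add D.bar]; congr 1; ring

lemma Dat.S_apply (x : E) : D.S x = D.T (x + D.bar x) := rfl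

lemma Dat.S_eq_zero {x : E} (h : x + D.bar x = 0) : D.S x = 0 := by
  rw [D.S_apply, h, map_zero]

lemma Dat.S_congr {x y : E} (h : x + D.bar x = y + D.bar y) : D.S x = D.S y := by
  rw [D.S_apply, D.S_apply, h]

/-- underlying set of the group -/
@[ext] structure Gp (D : Dat F E) where
  v : E
  w : E
  c : E
  e : F

/-- the polynomial part of the last coordinate of a product -/
def Dat.P (v w v' w' c' : E) : E :=
  12 * (v + D.bar v) * c' + 3 * D.et * w * D.bar w' + 6 * v ^ 2 * w' - 6 * w * D.bar v * v'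
    - 6 * D.bar v * w' * v' + 4 * D.ze * v ^ 3 * D.bar v' - 6 * D.ze * v ^ 2 * D.bar v * D.bar v'
    + 6 * D.ze * D.bar v * v' ^ 2 * D.bar v' - 3 * D.ze * v ^ 2 * D.bar v' ^ 2

instance : Mul (Gp D) where
  mul x y := ⟨x.v + y.v, x.w + y.w + 2 * D.ze * x.v * D.bar y.v,
    x.c + y.c + x.v * y.w + D.ze * x.v ^ 2 * D.bar y.v,
    x.e + y.e + D.S (D.P x.v x.w y.v y.w y.c) + D.b x.v y.v⟩

instance : One (Gp D) where one := ⟨0, 0, 0, 0⟩

@[simp] lemma mul_v (x y : Gp D) : (x * y).v = x.v + y.v := rfl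
@[simp] lemma mul_w (x y : Gp D) : (x * y).w = x.w + y.w + 2 * D.ze * x.v * D.bar y.v := rfl
@[simp] lemma mul_c (x y : Gp D) :
    (x * y).c = x.c + y.c + x.v * y.w + D.ze * x.v ^ 2 * D.bar y.v := rfl
@[simp] lemma mul_e (x y : Gp D) :
    (x * y).e = x.e + y.e + D.S (D.P x.v x.w y.v y.w y.c) + D.b x.v y.v := rfl
@[simp] lemma one_v : (1 : Gp D).v = 0 := rfl
@[simp] lemma one_w : (1 : Gp D).w = 0 := rfl
@[simp] lemma one_c : (1 : Gp D).c = 0 := rfl
@[simp] lemma one_e : (1 : Gp D).e = 0 := rfl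

lemma mul_assoc' (x y z : Gp D) : x * y * z = x * (y * z) := by
  ext
  · simp; ring
  · simp; ring
  · simp; ring
  · simp only [mul_e, mul_v, mul_w, mul_c, map_add, LinearMap.add_apply]
    have key : D.S (D.P x.v x.w y.v y.w y.c) +
        D.S (D.P (x.v + y.v) (x.w + y.w + 2 * D.ze * x.v * D.bar y.v) z.v z.w z.c) =
        D.S (D.P y.v y.w z.v z.w z.c) +
        D.S (D.P x.v x.w (y.v + z.v) (y.w + z.w + 2 * D.ze * y.v * D.bar z.v)
          (y.c + z.c + y.v * z.w + D.ze * y.v ^ 2 * D.bar z.v)) := by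
      rw [← map_add, ← map_add]
      apply D.S_congr
      unfold Dat.P
      simp only [map_add, map_sub, map_neg, map_mul, map_pow, map_ofNat, D.bar_bar, D.bar_ze,
        D.bar_et, neg_neg]
      have h := D.ze_et
      linear_combination (6 * x.v * D.bar y.v * D.bar z.w + 6 * D.bar x.v * y.v * z.w
        + 6 * x.w * D.bar y.v * z.v + 6 * D.bar x.w * y.v * D.bar z.v) * h
    linear_combination key

lemma one_mul' (x : Gp D) : 1 * x = x := by
  ext <;> simp [Dat.P]

instance : Inv (Gp D) where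
  inv x := ⟨-x.v, -x.w + 2 * D.ze * x.v * D.bar x.v, -x.c + x.v * x.w - D.ze * x.v ^ 2 * D.bar x.v,
    -x.e - D.S (D.P (-x.v) (-x.w + 2 * D.ze * x.v * D.bar x.v) x.v x.w x.c) - D.b (-x.v) x.v⟩

lemma inv_mul' (x : Gp D) : x⁻¹ * x = 1 := by
  ext
  · change -x.v + x.v = 0; ring
  · change (-x.w + 2 * D.ze * x.v * D.bar x.v) + x.w + 2 * D.ze * (-x.v) * D.bar x.v = 0; ring
  · change (-x.c + x.v * x.w - D.ze * x.v ^ 2 * D.bar x.v) + x.c + (-x.v) * x.w
      + D.ze * (-x.v) ^ 2 * D.bar x.v = 0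
    ring
  · change (-x.e - D.S (D.P (-x.v) (-x.w + 2 * D.ze * x.v * D.bar x.v) x.v x.w x.c)
      - D.b (-x.v) x.v) + x.e + D.S (D.P (-x.v) (-x.w + 2 * D.ze * x.v * D.bar x.v) x.v x.w x.c)
      + D.b (-x.v) x.v = 0
    ring

instance : Group (Gp D) := Group.ofLeftAxioms (mul_assoc' D) (one_mul' D) (inv_mul' D)

/-- elements with trivial first coordinate -/
def subV : Subgroup (Gp D) where
  carrier := {x | x.v = 0}
  one_mem' := rfl
  mul_mem' {x y} hx hy := by
    change x.v + y.v = 0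
    rw [Set.mem_ofPred_eq] at hx hy; rw [hx, hy, add_zero]
  inv_mem' {x} hx := by
    change -x.v = 0
    rw [Set.mem_ofPred_eq] at hx; rw [hx, neg_zero]

/-- elements with trivial first two coordinates -/
def subN : Subgroup (Gp D) where
  carrier := {x | x.v = 0 ∧ x.w = 0}
  one_mem' := ⟨rfl, rfl⟩
  mul_mem' {x y} hx hy := by
    obtain ⟨h1, h2⟩ := hx; obtain ⟨h3, h4⟩ := hy
    refine ⟨?_, ?_⟩
    · rw [mul_v, h1, h3, add_zero]
    · rw [mul_w, h1, h2, h4]; ring
  inv_mem' {x} hx := by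
    obtain ⟨h1, h2⟩ := hx
    refine ⟨?_, ?_⟩
    · change -x.v = 0; rw [h1, neg_zero]
    · change -x.w + 2 * D.ze * x.v * D.bar x.v = 0; rw [h1, h2]; ring

/-- elements with trivial first three coordinates -/
def subZ : Subgroup (Gp D) where
  carrier := {x | x.v = 0 ∧ x.w = 0 ∧ x.c = 0}
  one_mem' := ⟨rfl, rfl, rfl⟩
  mul_mem' {x y} hx hy := by
    obtain ⟨h1, h2, h3⟩ := hx; obtain ⟨h4, h5, h6⟩ := hy
    refine ⟨?_, ?_, ?_⟩
    · rw [mul_v, h1, h4, add_zero]
    · rw [mul_w, h1, h2, h5]; ring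
    · rw [mul_c, h1, h3, h6, h5]; ring
  inv_mem' {x} hx := by
    obtain ⟨h1, h2, h3⟩ := hx
    refine ⟨?_, ?_, ?_⟩
    · change -x.v = 0; rw [h1, neg_zero]
    · change -x.w + 2 * D.ze * x.v * D.bar x.v = 0; rw [h1, h2]; ring
    · change -x.c + x.v * x.w - D.ze * x.v ^ 2 * D.bar x.v = 0; rw [h1, h2, h3]; ring

lemma mem_subV {x : Gp D} : x ∈ subV D ↔ x.v = 0 := Iff.rfl
lemma mem_subN {x : Gp D} : x ∈ subN D ↔ x.v = 0 ∧ x.w = 0 := Iff.rfl
lemma mem_subZ {x : Gp D} : x ∈ subZ D ↔ x.v = 0 ∧ x.w = 0 ∧ x.c = 0 := Iff.rfl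

/-- The key solvability statement: outside `subN` the equation `g y = y (g n)` can be solved. -/
lemma solve (h12 : (12 : E) ≠ 0) (h2 : (2 : E) ≠ 0) (g : Gp D) (hg : ¬ (g.v = 0 ∧ g.w = 0))
    (n : Gp D) (hn : n.v = 0 ∧ n.w = 0) : ∃ y : Gp D, g * y = y * (g * n) := by
  obtain ⟨v, w, c, e⟩ := g
  obtain ⟨nv, nw, c0, e0⟩ := n
  obtain ⟨rfl, rfl⟩ := hn
  simp only at hg
  have hS : ∀ a : E, a ≠ 0 → ∀ t : F, ∃ x, D.S (a * x) = t := by
    intro a ha t
    refine ⟨a⁻¹ * (algebraMap F E t * 2⁻¹), ?_⟩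
    rw [← mul_assoc, mul_inv_cancel₀ ha, one_mul, D.S_apply, map_mul, map_inv₀, map_ofNat,
      D.bar.commutes, ← mul_add]
    have : (2⁻¹ : E) + 2⁻¹ = 1 := by field_simp; norm_num
    rw [this, ← Algebra.smul_def, map_smul, D.T_one, smul_eq_mul, mul_one]
  have h6 : (6 : E) ≠ 0 := by
    intro h; apply h12; linear_combination 2 * h
  have het : D.et ≠ 0 := inv_ne_zero D.ze_ne
  have h := D.ze_et
  by_cases hv : v = 0
  · subst hv
    have hw : w ≠ 0 := fun h => hg ⟨rfl, h⟩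
    obtain ⟨v', hv'⟩ : ∃ v', v' * w = -c0 := ⟨-c0 / w, by field_simp⟩
    obtain ⟨x, hx⟩ := hS (6 * D.et * w) (mul_ne_zero (mul_ne_zero h6 het) hw)
      (e0 + D.S (12 * (v' + D.bar v') * (c + c0) + 6 * v' ^ 2 * w))
    refine ⟨⟨v', D.bar x, 0, 0⟩, ?_⟩
    ext
    · simp
    · simp; ring
    · simp only [mul_c, mul_w, mul_v, map_zero, add_zero]; linear_combination -hv'
    · simp only [mul_e, mul_v, mul_w, mul_c, map_zero, LinearMap.zero_apply]
      have e1 : D.P 0 w v' (D.bar x) 0 = 3 * D.et * w * x := by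
        unfold Dat.P; rw [D.bar_bar, map_zero]; ring
      have e2 : D.P 0 w 0 0 c0 = 0 := by
        unfold Dat.P; rw [map_zero]; ring
      have e3 : D.P v' (D.bar x) (0 + 0) (w + 0 + 2 * D.ze * 0 * 0)
          (c + c0 + 0 * 0 + D.ze * 0 ^ 2 * 0) =
          3 * D.et * D.bar x * D.bar w + (12 * (v' + D.bar v') * (c + c0) + 6 * v' ^ 2 * w) := by
        unfold Dat.P; simp only [add_zero, mul_zero, map_zero]; ring
      have e4 : D.S (3 * D.et * D.bar x * D.bar w) + D.S (3 * D.et * w * x) = 0 := by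
        rw [← map_add]; apply D.S_eq_zero
        simp only [map_add, map_mul, map_ofNat, D.bar_bar, D.bar_et]; ring
      have e5 : D.S (6 * D.et * w * x) = D.S (3 * D.et * w * x) + D.S (3 * D.et * w * x) := by
        rw [← map_add]; congr 1; ring
      rw [e1, e2, e3, map_add D.S (3 * D.et * D.bar x * D.bar w)]
      simp only [map_zero, add_zero]
      linear_combination (-1 : F) * e4 + hx - e5
  · by_cases hb : v + D.bar v = 0
    · have hbv : D.bar v = -v := by linear_combination hb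
      obtain ⟨d, hd⟩ : ∃ d, c0 = v * d := ⟨c0 / v, by field_simp⟩
      obtain ⟨v', hv'1, hv'2⟩ := D.hb v hv hbv (e0 - D.S (6 * v ^ 2 * d + 6 * D.et * w * D.bar d))
      obtain ⟨r, hr⟩ : ∃ r, v' = r * v := ⟨v' / v, by field_simp⟩
      have hbr : D.bar r = r := by
        have : D.bar r * v = r * v := by
          have h1 : D.bar (r * v) = -(r * v) := by rw [← hr]; exact hv'1
          rw [map_mul, hbv] at h1; linear_combination -h1
        exact mul_right_cancel₀ hv this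
      refine ⟨⟨v', d + r * w + D.ze * v ^ 2 * (r - r ^ 2), 0, 0⟩, ?_⟩
      subst hr hd
      ext
      · simp; ring
      · simp only [mul_w, mul_v, map_add, map_mul, map_zero, hbv, hbr]; ring
      · simp only [mul_c, mul_w, mul_v, map_add, map_mul, map_zero, hbv, hbr]; ring
      · simp only [mul_e, mul_v, mul_w, mul_c, map_zero, add_zero, mul_zero]
        have e2 : D.P v w 0 0 (v * d) = 0 := by
          unfold Dat.P; rw [map_zero, hbv]; ring
        have e3 : D.S (D.P v w (r * v) (d + r * w + D.ze * v ^ 2 * (r - r ^ 2)) 0) =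
            D.S (D.P (r * v) (d + r * w + D.ze * v ^ 2 * (r - r ^ 2)) v w (c + v * d))
            + D.S (6 * v ^ 2 * d + 6 * D.et * w * D.bar d) := by
          rw [← map_add]
          apply D.S_congr
          unfold Dat.P
          simp only [map_add, map_sub, map_neg, map_mul, map_pow, map_ofNat, D.bar_bar, D.bar_ze,
            D.bar_et, neg_neg, hbv, hbr]
          linear_combination (-6 * v ^ 2 * (r - r ^ 2) * (w + D.bar w)) * h
        rw [e2, e3, map_zero]
        linear_combination hv'2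
    · obtain ⟨w', hw'⟩ : ∃ w', v * w' = c0 := ⟨c0 / v, by field_simp⟩
      obtain ⟨c', hc'⟩ := hS (12 * (v + D.bar v)) (mul_ne_zero h12 hb)
        (e0 + D.S (12 * (v + D.bar v) * c0) + D.S (3 * D.et * w' * D.bar w)
          - D.S (3 * D.et * w * D.bar w' + 6 * v ^ 2 * w'))
      refine ⟨⟨0, w', c', 0⟩, ?_⟩
      ext
      · simp
      · simp; ring
      · simp only [mul_c, mul_w, map_zero]; linear_combination hw'
      · simp only [mul_e, mul_v, mul_w, mul_c, map_zero, LinearMap.zero_apply, add_zero,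
          mul_zero, zero_add]
        have e1 : D.P v w 0 w' c' = 12 * (v + D.bar v) * c' + (3 * D.et * w * D.bar w'
            + 6 * v ^ 2 * w') := by
          unfold Dat.P; rw [map_zero]; ring
        have e2 : D.P v w 0 0 c0 = 12 * (v + D.bar v) * c0 := by
          unfold Dat.P; rw [map_zero]; ring
        have e3 : D.P 0 w' v w (c + c0) = 3 * D.et * w' * D.bar w := by
          unfold Dat.P; rw [map_zero]; ring
        rw [e1, e2, e3, map_add]
        linear_combination hc'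

lemma camina_step (h12 : (12 : E) ≠ 0) (h2 : (2 : E) ≠ 0) (g : Gp D) (hg : g ∉ subN D)
    (n : Gp D) (hn : n ∈ subN D) : ∃ x : Gp D, x⁻¹ * g * x = g * n := by
  obtain ⟨y, hy⟩ := solve D h12 h2 g hg n hn
  exact ⟨y, by rw [mul_assoc, hy, ← mul_assoc, inv_mul_cancel, one_mul]⟩

lemma comm_v (x y : Gp D) : (x * y).v = (y * x).v := by
  rw [mul_v, mul_v, add_comm]

lemma comm_eq (x y : Gp D) : ⁅x, y⁆ * (y * x) = x * y := by
  rw [commutatorElement_def]; group

lemma lcs1_le : lcsTerm (Gp D) 2 ≤ subV D := by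
  change ⁅(⊤ : Subgroup (Gp D)), ⊤⁆ ≤ subV D
  rw [Subgroup.commutator_le]
  intro x _ y _
  have h := congrArg Gp.v (comm_eq D x y)
  rw [mul_v, mul_v, mul_v] at h
  rw [mem_subV]; linear_combination h

lemma lcs2_le : lcsTerm (Gp D) 3 ≤ subN D := by
  change ⁅lcsTerm (Gp D) 2, (⊤ : Subgroup (Gp D))⁆ ≤ subN D
  rw [Subgroup.commutator_le]
  intro x hx y _
  have hx' : x.v = 0 := lcs1_le D hx
  have h := comm_eq D x y
  have h1 := congrArg Gp.v h
  have h2 := congrArg Gp.w h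
  simp only [mul_v, mul_w] at h1 h2
  have h3 : (⁅x, y⁆ : Gp D).v = 0 := by linear_combination h1
  refine ⟨h3, ?_⟩
  rw [h3, hx', map_zero] at h2
  linear_combination h2

lemma lcs3_le : lcsTerm (Gp D) 4 ≤ subZ D := by
  change ⁅lcsTerm (Gp D) 3, (⊤ : Subgroup (Gp D))⁆ ≤ subZ D
  rw [Subgroup.commutator_le]
  intro x hx y _
  obtain ⟨hx1, hx2⟩ := lcs2_le D hx
  have h := comm_eq D x y
  have h1 := congrArg Gp.v h
  have h2 := congrArg Gp.w h
  have h3 := congrArg Gp.c h
  simp only [mul_v, mul_w, mul_c] at h1 h2 h3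
  have h4 : (⁅x, y⁆ : Gp D).v = 0 := by linear_combination h1
  have h5 : (⁅x, y⁆ : Gp D).w = 0 := by
    rw [h4, hx1, map_zero] at h2; linear_combination h2
  refine ⟨h4, h5, ?_⟩
  rw [h4, hx1, hx2, map_zero] at h3
  linear_combination h3

lemma exists_lcs1 (h2 : (2 : E) ≠ 0) : ∃ x ∈ lcsTerm (Gp D) 2, x ∉ subN D := by
  let x : Gp D := ⟨1, 0, 0, 0⟩
  let y : Gp D := ⟨D.ze, 0, 0, 0⟩
  refine ⟨⁅x, y⁆, Subgroup.commutator_mem_commutator (Subgroup.mem_top _) (Subgroup.mem_top _), ?_⟩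
  intro hN
  obtain ⟨h3, h4⟩ := hN
  have h := congrArg Gp.w (comm_eq D x y)
  simp only [mul_v, mul_w] at h
  rw [h3, h4] at h
  rw [D.bar_ze, map_one] at h
  have : (2 * D.ze) * (2 * D.ze) = 0 := by linear_combination h
  have h5 := mul_ne_zero h2 D.ze_ne
  exact mul_ne_zero h5 h5 this

lemma lcs2_eq (h12 : (12 : E) ≠ 0) (h2 : (2 : E) ≠ 0) : lcsTerm (Gp D) 3 = subN D := by
  apply le_antisymm (lcs2_le D)
  intro n hn
  obtain ⟨x, hx, hxN⟩ := exists_lcs1 D h2
  obtain ⟨y, hy⟩ := camina_step D h12 h2 x hxN n hn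
  have h : n = ⁅x⁻¹, y⁻¹⁆ := by
    rw [commutatorElement_def, inv_inv, inv_inv, mul_assoc, mul_assoc, ← mul_assoc y⁻¹, hy]
    group
  rw [h]
  exact Subgroup.commutator_mem_commutator (inv_mem hx) (Subgroup.mem_top _)

lemma lcs3_ne (h12 : (12 : E) ≠ 0) (h2 : (2 : E) ≠ 0) : lcsTerm (Gp D) 4 ≠ ⊥ := by
  intro hbot
  let y : Gp D := ⟨1, 0, 0, 0⟩
  let x : Gp D := ⟨0, 0, 2⁻¹ * 2⁻¹ * 12⁻¹, 0⟩
  have hx : x ∈ lcsTerm (Gp D) 3 := by rw [lcs2_eq D h12 h2]; exact ⟨rfl, rfl⟩
  have hc : ⁅x, y⁆ ∈ lcsTerm (Gp D) 4 :=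
    Subgroup.commutator_mem_commutator hx (Subgroup.mem_top _)
  rw [hbot, Subgroup.mem_bot, commutatorElement_eq_one_iff_mul_comm] at hc
  have h := congrArg Gp.e hc
  rw [mul_e, mul_e] at h
  have e1 : D.P x.v x.w y.v y.w y.c = 0 := by
    change D.P 0 0 1 0 0 = 0
    unfold Dat.P; simp
  have e2 : D.P y.v y.w x.v x.w x.c = 2⁻¹ := by
    change D.P 1 0 0 0 (2⁻¹ * 2⁻¹ * 12⁻¹) = 2⁻¹
    unfold Dat.P
    simp only [map_one, map_zero]
    field_simp
    ring
  have e3 : D.b x.v y.v = 0 := by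
    change D.b 0 1 = 0
    simp
  have e4 : D.b y.v x.v = 0 := by
    change D.b 1 0 = 0
    simp
  have e5 : D.S (2⁻¹ : E) = 1 := by
    rw [D.S_apply, map_inv₀, map_ofNat]
    have : (2⁻¹ : E) + 2⁻¹ = 1 := by field_simp; norm_num
    rw [this, D.T_one]
  rw [e1, e2, e3, e4, e5, map_zero] at h
  have h' : (1 : F) = 0 := by linear_combination -h
  exact one_ne_zero h'

lemma result_aux (h12 : (12 : E) ≠ 0) (h2 : (2 : E) ≠ 0) :
    IsCaminaPair (lcsTerm (Gp D) 3) ∧ lcsTerm (Gp D) 4 ≠ ⊥ ∧ ¬ IsCaminaPair (lcsTerm (Gp D) 4) := by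
  refine ⟨⟨?_, ?_, ?_, ?_⟩, lcs3_ne D h12 h2, ?_⟩
  · unfold lcsTerm; infer_instance
  · intro h
    apply lcs3_ne D h12 h2
    rw [eq_bot_iff, ← h]
    exact Subgroup.lowerCentralSeries_antitone _ (by norm_num)
  · intro h
    have : (⟨1, 0, 0, 0⟩ : Gp D) ∈ lcsTerm (Gp D) 3 := by rw [h]; exact Subgroup.mem_top _
    have := (lcs2_le D this).1
    exact one_ne_zero this
  · intro g hg n hn
    rw [lcs2_eq D h12 h2] at hg hn
    exact camina_step D h12 h2 g hg n hn
  · intro ⟨_, hne, _, hC⟩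
    let z : Gp D := ⟨0, 0, D.ze, 0⟩
    have hz : z ∉ lcsTerm (Gp D) 4 := fun hz => D.ze_ne (lcs3_le D hz).2.2
    have hcen : ∀ y : Gp D, z * y = y * z := by
      intro y
      ext
      · simp [z]
      · simp [z]
      · simp [z]; ring
      · rw [mul_e, mul_e]
        have e1 : D.P z.v z.w y.v y.w y.c = 0 := by
          change D.P 0 0 y.v y.w y.c = 0
          unfold Dat.P; simp
        have e2 : D.S (D.P y.v y.w z.v z.w z.c) = 0 := by
          change D.S (D.P y.v y.w 0 0 D.ze) = 0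
          apply D.S_eq_zero
          unfold Dat.P
          simp only [map_zero, map_add, map_sub, map_mul, map_ofNat, map_pow, D.bar_bar, D.bar_ze]
          ring
        have e3 : D.b z.v y.v = 0 := by
          change D.b 0 y.v = 0
          simp
        have e4 : D.b y.v z.v = 0 := by
          change D.b y.v 0 = 0
          simp
        rw [e1, e2, e3, e4, map_zero]; ring
    apply hne
    rw [eq_bot_iff]
    intro n hn
    obtain ⟨x, hx⟩ := hC z hz n hn
    rw [mul_assoc, hcen x, ← mul_assoc, inv_mul_cancel, one_mul] at hx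
    rw [Subgroup.mem_bot]
    exact (mul_eq_left.mp hx.symm)

end

section
variable (p : ℕ) [hp : Fact p.Prime]

lemma exists_dat (h5 : 5 ≤ p) : Nonempty (Dat (ZMod p) (GaloisField p 4)) := by
  classical
  have : Fintype (GaloisField p 4) := Fintype.ofFinite _
  have hcard : Fintype.card (GaloisField p 4) = p ^ 4 := by
    rw [← Nat.card_eq_fintype_card, GaloisField.card p 4 (by norm_num)]
  let φ : GaloisField p 4 →ₐ[ZMod p] GaloisField p 4 :=
    FiniteField.frobeniusAlgHom (ZMod p) (GaloisField p 4)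
  have hφ : ∀ x, φ x = x ^ p := by
    intro x
    change x ^ (Fintype.card (ZMod p)) = x ^ p
    rw [ZMod.card]
  have hφ4 : ∀ x, φ (φ (φ (φ x))) = x := by
    intro x
    rw [hφ, hφ, hφ, hφ, ← pow_mul, ← pow_mul, ← pow_mul]
    conv_rhs => rw [← FiniteField.pow_card x, hcard]
    congr 1; ring
  obtain ⟨g, hg⟩ := IsCyclic.exists_generator (α := (GaloisField p 4)ˣ)
  have hord : orderOf g = p ^ 4 - 1 := by
    rw [orderOf_eq_card_of_forall_mem_zpowers hg, Nat.card_eq_fintype_card, Fintype.card_units,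
      hcard]
  have hpow : ∀ m : ℕ, 0 < m → m < p ^ 4 - 1 → g ^ m ≠ 1 := by
    intro m hm hlt h
    have := Nat.le_of_dvd hm (orderOf_dvd_of_pow_eq_one h)
    omega
  have hp0 : 0 < p := by omega
  -- the skew element
  have hze : (g : GaloisField p 4) - φ (φ g) ≠ 0 := by
    intro h
    have h1 : (g : GaloisField p 4) ^ (p * p) = g := by
      rw [hφ, hφ, ← pow_mul] at h; linear_combination -h
    have h2 : g ^ (p * p) = g := by ext; rw [Units.val_pow_eq_pow_val]; exact h1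
    have h3 : g ^ (p * p - 1) = 1 := by
      have : g ^ (p * p - 1) * g = g := by
        rw [← pow_succ, Nat.sub_add_cancel (by nlinarith)]; exact h2
      exact mul_eq_right.mp this
    refine hpow _ ?_ ?_ h3
    · have : 5 * 5 ≤ p * p := Nat.mul_le_mul h5 h5
      omega
    · have h6 : p * p * 25 ≤ p ^ 4 := by
        have : p ^ 4 = p * p * (p * p) := by ring
        rw [this]; exact Nat.mul_le_mul_left _ (Nat.mul_le_mul h5 h5)
      have : 5 * 5 ≤ p * p := Nat.mul_le_mul h5 h5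
      omega
  -- the element of the quadratic subfield
  obtain ⟨κ, hκ1, hκ2⟩ : ∃ κ : GaloisField p 4, φ (φ κ) = κ ∧ φ κ ≠ κ := by
    refine ⟨(g : GaloisField p 4) ^ (p * p + 1), ?_, ?_⟩
    · have h1 : φ (φ (g : GaloisField p 4)) = (g : GaloisField p 4) ^ (p * p) := by
        rw [hφ, hφ, ← pow_mul]
      have h2 : φ (φ (φ (φ (g : GaloisField p 4)))) = g := hφ4 _
      rw [map_pow, map_pow, pow_succ, ← map_pow, ← map_pow, ← h1, h2, pow_succ, ← h1]
      ring
    · intro h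
      rw [hφ, ← pow_mul] at h
      have h2 : g ^ ((p * p + 1) * p) = g ^ (p * p + 1) := by
        ext; rw [Units.val_pow_eq_pow_val, Units.val_pow_eq_pow_val]; exact h
      have h3 : g ^ ((p * p + 1) * (p - 1)) = 1 := by
        have : g ^ ((p * p + 1) * (p - 1)) * g ^ (p * p + 1) = g ^ (p * p + 1) := by
          rw [← pow_add, ← h2]; congr 1
          obtain ⟨q, rfl⟩ : ∃ q, p = q + 1 := ⟨p - 1, by omega⟩
          rw [Nat.add_sub_cancel]; ring
        exact mul_eq_right.mp this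
      refine hpow _ ?_ ?_ h3
      · apply Nat.mul_pos (by positivity) (by omega)
      · obtain ⟨q, rfl⟩ : ∃ q, p = q + 1 := ⟨p - 1, by omega⟩
        rw [Nat.add_sub_cancel]
        have h7 : (q + 1) ^ 4 - 1 = ((q + 1) * (q + 1) + 1) * (q * (q + 2)) := by
          have : (q + 1) ^ 4 = ((q + 1) * (q + 1) + 1) * (q * (q + 2)) + 1 := by ring
          omega
        rw [h7]
        apply Nat.mul_lt_mul_of_pos_left _ (by positivity)
        nlinarith
  obtain ⟨T, hT⟩ := LinearMap.exists_leftInverse_of_injective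
    (Algebra.linearMap (ZMod p) (GaloisField p 4))
    (LinearMap.ker_eq_bot.mpr (algebraMap (ZMod p) (GaloisField p 4)).injective)
  have hT' : ∀ a : ZMod p, T (algebraMap (ZMod p) (GaloisField p 4) a) = a := by
    intro a
    have := LinearMap.congr_fun hT a
    simpa using this
  let b : GaloisField p 4 →ₗ[ZMod p] GaloisField p 4 →ₗ[ZMod p] ZMod p :=
    ((LinearMap.mul (ZMod p) (GaloisField p 4)).compl₂ φ.toLinearMap).compr₂ T
  have hb : ∀ x y, b x y = T (x * φ y) := fun x y => rfl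
  refine ⟨{ bar := φ.comp φ, bar_bar := hφ4, ze := (g : GaloisField p 4) - φ (φ g), ze_ne := hze,
            bar_ze := ?_, T := T, T_one := ?_, b := b, hb := ?_ }⟩
  · change φ (φ ((g : GaloisField p 4) - φ (φ g))) = _
    rw [map_sub, map_sub, hφ4]; ring
  · have := hT' 1
    rwa [map_one] at this
  · intro v hv hv' t
    change φ (φ v) = -v at hv'
    set Θ : GaloisField p 4 := v * φ (κ * v) - κ * v * φ v with hΘ
    have hΘ1 : Θ = v * φ v * (φ κ - κ) := by rw [hΘ, map_mul]; ring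
    have hφv : φ v ≠ 0 := by
      rw [hφ]; exact pow_ne_zero _ hv
    have hΘ2 : Θ ≠ 0 := by
      rw [hΘ1]; exact mul_ne_zero (mul_ne_zero hv hφv) (sub_ne_zero.mpr hκ2)
    have hΘ3 : Θ ^ p = Θ := by
      rw [← hφ, hΘ1, map_mul, map_mul, map_sub, hκ1, hv']; ring
    rw [← Subfield.mem_bot_iff_pow_eq_self, mem_bot_iff_intCast p] at hΘ3
    obtain ⟨n, hn⟩ := hΘ3
    have hn' : algebraMap (ZMod p) (GaloisField p 4) (n : ZMod p) = Θ := by
      rw [map_intCast, hn]
    have hn0 : (n : ZMod p) ≠ 0 := by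
      intro h0; apply hΘ2; rw [← hn', h0, map_zero]
    refine ⟨(t * (n : ZMod p)⁻¹) • (κ * v), ?_, ?_⟩
    · change φ (φ ((t * (n : ZMod p)⁻¹) • (κ * v))) = _
      rw [map_smul, map_smul, map_mul, map_mul, hκ1, hv', mul_neg, smul_neg]
    · rw [map_smul, map_smul, LinearMap.smul_apply, ← smul_sub, hb, hb, ← map_sub, ← hΘ, ← hn',
        hT', smul_eq_mul]
      field_simp

/-- For every prime `p ≥ 5` there is a finite `p`-group (of order `p ^ 13`) for which
`(G, G_3)` is a Camina pair, `G_4 ≠ 1`, and `(G, G_4)` is not a Camina pair. -/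
theorem result : ∀ p : ℕ, p.Prime → 5 ≤ p →
    ∃ (G : Type) (_ : Group G), Finite G ∧ IsPGroup p G ∧ Nat.card G = p ^ 13 ∧
      IsCaminaPair (lcsTerm G 3) ∧ lcsTerm G 4 ≠ ⊥ ∧ ¬ IsCaminaPair (lcsTerm G 4) := by
  intro p hp h5
  have : Fact p.Prime := ⟨hp⟩
  obtain ⟨D⟩ := exists_dat p h5
  let e : Gp D ≃ GaloisField p 4 × GaloisField p 4 × GaloisField p 4 × ZMod p :=
    { toFun := fun x => (x.v, x.w, x.c, x.e)
      invFun := fun x => ⟨x.1, x.2.1, x.2.2.1, x.2.2.2⟩
      left_inv := fun x => rfl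
      right_inv := fun x => rfl }
  have hfin : Finite (Gp D) := Finite.of_equiv _ e.symm
  have hcard : Nat.card (Gp D) = p ^ 13 := by
    rw [Nat.card_congr e, Nat.card_prod, Nat.card_prod, Nat.card_prod,
      GaloisField.card p 4 (by norm_num), Nat.card_zmod]
    ring
  have hne : ∀ m : ℕ, 0 < m → Nat.Coprime m p → (m : GaloisField p 4) ≠ 0 := by
    intro m hm hco h
    rw [CharP.cast_eq_zero_iff (GaloisField p 4) p] at h
    have := Nat.Coprime.eq_one_of_dvd hco.symm h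
    omega
  have hc2 : Nat.Coprime 2 p := (Nat.coprime_primes Nat.prime_two hp).mpr (by omega)
  have hc3 : Nat.Coprime 3 p := (Nat.coprime_primes Nat.prime_three hp).mpr (by omega)
  have hc12 : Nat.Coprime 12 p := Nat.Coprime.mul_left (Nat.Coprime.mul_left hc2 hc2) hc3
  have h2 : (2 : GaloisField p 4) ≠ 0 := by exact_mod_cast hne 2 (by norm_num) hc2
  have h12 : (12 : GaloisField p 4) ≠ 0 := by exact_mod_cast hne 12 (by norm_num) hc12
  exact ⟨Gp D, inferInstance, hfin, IsPGroup.of_card hcard, hcard, result_aux D h12 h2⟩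

end

end Pool.Agent.Results.MP_15c144_al.MacdonaldCamina
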